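import Pool.Agent.Helper99.CT.Defs

/-! Project CT, packet LAM: the combinatorial lemma on laminar families. -/

set_option autoImplicit false

namespace Pool.Agent.Helper9.CT

open Pool.Agent.Helper99.CT Finset

theorem countP_eq {n : ℕ} (p : Finset (Fin n) → Prop) [DecidablePred p]
    (w : List (Finset (Fin n))) :
    w.countP (fun S => decide (p S)) = ∑ T ∈ (univ : Finset (Finset (Fin n))).filter p, w.count T := by
  induction w with
  | nil => simp
  | cons a w ih =>
    rw [List.countP_cons, ih]
    have h1 : ∀ T : Finset (Fin n), (a :: w).count T = w.count T + if a = T then 1 else 0 := by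
      intro T
      rw [List.count_cons]
      simp
    rw [sum_congr rfl (fun T _ => h1 T), sum_add_distrib]
    congr 1
    rw [sum_ite_eq]
    simp

theorem lam : GoalLam := by
  classical
  intro n w hcard hcross hpair S0
  by_contra hS0
  rw [Nat.not_even_iff_odd] at hS0
  let E : Finset (Finset (Fin n)) := univ.filter (fun T => Odd (w.count T))
  have hE : ∀ T, T ∈ E ↔ Odd (w.count T) := fun T => by simp [E]
  have hcomp : ∀ S ∈ E, ∀ T ∈ E, Comp S T := by
    intro S hS T hT
    by_contra h
    exact hcross S T h ⟨(hE S).1 hS, (hE T).1 hT⟩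
  obtain ⟨S, hS, hmax⟩ := E.exists_max_image Finset.card ⟨S0, (hE S0).2 hS0⟩
  have hSw : S ∈ w := by
    have h1 := (hE S).1 hS
    exact List.count_pos_iff.1 h1.pos
  have hS2 := hcard S hSw
  obtain ⟨i, hi⟩ : S.Nonempty := by
    rw [← card_pos]
    omega
  -- the key claim
  obtain ⟨j, hj, hij, hkey⟩ : ∃ j ∈ S, i ≠ j ∧ ∀ U ∈ E, i ∈ U → j ∈ U → U = S := by
    let F := E.filter (fun T => T ≠ S ∧ i ∈ T)
    have hF : ∀ T, T ∈ F ↔ T ∈ E ∧ T ≠ S ∧ i ∈ T := fun T => by simp [F]
    by_cases hne : F.Nonempty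
    · obtain ⟨T, hT, hTmax⟩ := F.exists_max_image Finset.card hne
      obtain ⟨hTE, hTS, hiT⟩ := (hF T).1 hT
      have hsub : T ⊆ S := by
        rcases hcomp S hS T hTE with h | h | h
        · exact absurd (eq_of_subset_of_card_le h (hmax T hTE)).symm hTS
        · exact h
        · exact absurd hiT (disjoint_left.1 h hi)
      obtain ⟨j, hjS, hjT⟩ := exists_of_ssubset (hsub.ssubset_of_ne hTS)
      refine ⟨j, hjS, ?_, ?_⟩
      · rintro rfl
        exact hjT hiT
      · intro U hU hiU hjU
        by_contra hUS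
        have hUF := (hF U).2 ⟨hU, hUS, hiU⟩
        have h1 := hTmax U hUF
        rcases hcomp T hTE U hU with h | h | h
        · exact hjT ((eq_of_subset_of_card_le h h1) ▸ hjU)
        · exact hjT (h hjU)
        · exact disjoint_left.1 h hiT hiU
    · obtain ⟨j, hj, hji⟩ := exists_mem_ne (by omega : 1 < S.card) i
      refine ⟨j, hj, fun h => hji h.symm, ?_⟩
      intro U hU hiU _
      by_contra hUS
      exact hne ⟨U, (hF U).2 ⟨hU, hUS, hiU⟩⟩
  have h1 := hpair i j hij
  rw [countP_eq (fun S => i ∈ S ∧ j ∈ S), even_sum_iff_even_card_odd, filter_filter] at h1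
  have h2 : (univ : Finset (Finset (Fin n))).filter
      (fun T => (i ∈ T ∧ j ∈ T) ∧ Odd (w.count T)) = {S} := by
    ext T
    rw [mem_filter, mem_singleton]
    constructor
    · rintro ⟨-, ⟨h3, h4⟩, h5⟩
      exact hkey T ((hE T).2 h5) h3 h4
    · rintro rfl
      exact ⟨mem_univ _, ⟨hi, hj⟩, (hE _).1 hS⟩
  rw [h2, card_singleton] at h1
  exact absurd h1 (by decide)

end Pool.Agent.Helper9.CT
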